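import Pool.Agent.E3S.Curve
import Pool.Agent.E3S.Done

/-! MP_12a1af_nt, Q2: sets with `|A ∩ [0, x)| ≥ √x * exp (-L x)` and `r_A(n) ≤ (log n) ^ (ρ + ε)`,
`L x = (log x) ^ (min ((1 - ρ) / 2) (1 - 2 * ρ) + ε)` for `ρ < 1 / 2`,
`L x = B * (log log x) ^ 3` for `ρ = 1 / 2`. -/

set_option autoImplicit false

namespace Pool.Agent.Helper5.Old.ThickSets

/-- For all real `0 ≤ ρ ≤ 1 / 2` and `ε > 0` there is a set `A` of natural numbers and a real `B`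
such that every large `n` has at most `(log n) ^ (ρ + ε)` ordered representations `n = a + b` with
`a, b ∈ A`, and for every large `x`: `|A ∩ [0, x)| ≥ √x * exp (-(log x) ^ (λ + ε))` with
`λ = min ((1 - ρ) / 2) (1 - 2 * ρ)` if `ρ < 1 / 2` (so `λ = (1 - ρ) / 2` for `ρ ≤ 1 / 3` and
`λ = 1 - 2 * ρ` for `1 / 3 ≤ ρ`), and `|A ∩ [0, x)| ≥ √x * exp (-B * (log log x) ^ 3)` if
`ρ = 1 / 2`. -/
theorem result (ρ : ℝ) (h0 : 0 ≤ ρ) (h1 : ρ ≤ 1 / 2) (ε : ℝ) (hε : 0 < ε) :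
    ∃ (A : Set ℕ) (B : ℝ),
      (∀ᶠ n : ℕ in Filter.atTop,
        ({q : ℕ × ℕ | q.1 ∈ A ∧ q.2 ∈ A ∧ q.1 + q.2 = n}.ncard : ℝ) ≤ Real.log n ^ (ρ + ε)) ∧
      ∀ᶠ x : ℕ in Filter.atTop,
        √(x : ℝ) * Real.exp (-(if ρ < 1 / 2 then
            Real.log x ^ (min ((1 - ρ) / 2) (1 - 2 * ρ) + ε)
          else B * Real.log (Real.log x) ^ 3)) ≤ ((A ∩ Set.Iio x).ncard : ℝ) :=
  Pool.Agent.E3S.curve_of Pool.Agent.E3S.finalStmt ρ h0 h1 ε hε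

end Pool.Agent.Helper5.Old.ThickSets
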