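import Pool.Agent.Helper5.ET.Final

/-! MP_12a1af_nt, Q2: a set with `r_A(n) ≤ C √(log n)` and `|A ∩ [0, x)| ≥ √x / (C (log x)^3)`. -/

namespace Pool.Agent.Results.MP_12a1af_nt.ThickSqrtLog

/-- There are a set `A` of natural numbers and a real `C > 0` such that every `n ≥ 2` has at most
`C √(log n)` ordered representations `n = a + b` with `a, b ∈ A`, and
`|A ∩ [0, x)| ≥ √x / (C (log x)^3)` for every `x ≥ 2`. -/
theorem result : ∃ (A : Set ℕ) (C : ℝ), 0 < C ∧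
    (∀ n : ℕ, 2 ≤ n →
      ({q : ℕ × ℕ | q.1 ∈ A ∧ q.2 ∈ A ∧ q.1 + q.2 = n}.ncard : ℝ) ≤ C * √(Real.log n)) ∧
    ∀ x : ℕ, 2 ≤ x → √(x : ℝ) / (C * Real.log x ^ 3) ≤ ((A ∩ Set.Iio x).ncard : ℝ) :=
  Helper5.ET.final

end Pool.Agent.Results.MP_12a1af_nt.ThickSqrtLog
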